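import Pool.Agent.H69.LQ.Lib

set_option autoImplicit false

open MeasureTheory Metric Set
open scoped ENNReal
open Pool.Agent.H85.LK (E adm lam Ann)
open Pool.Agent.H69.LQ

namespace Pool.Agent.H55.LQ

variable {N : ℕ}

theorem coord_fderiv (i j : Fin N) (x : E N) :
    fderiv ℝ (fun y : E N => y i) x (EuclideanSpace.single j 1) = if i = j then 1 else 0 := by
  have h : (fun y : E N => y i) = (EuclideanSpace.proj i : E N →L[ℝ] ℝ) := rfl
  rw [h, ContinuousLinearMap.fderiv]
  simp

theorem int_one (F : E N → ℝ) (hF : ContDiff ℝ (⊤ : ℕ∞) F) (hc : HasCompactSupport F)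
    (i j : Fin N) (hij : i ≠ j) :
    ∫ x, x i * fderiv ℝ F x (EuclideanSpace.single j 1) = 0 ∧
      Integrable (fun x => x i * fderiv ℝ F x (EuclideanSpace.single j 1)) := by
  have hcd : HasCompactSupport (fun x => fderiv ℝ F x (EuclideanSpace.single j 1)) := by
    have h := hc.fderiv (𝕜 := ℝ)
    exact h.comp_left (g := fun L : E N →L[ℝ] ℝ => L (EuclideanSpace.single j 1)) rfl
  have hcont : Continuous (fun x => fderiv ℝ F x (EuclideanSpace.single j 1)) := by
    have h := hF.continuous_fderiv (by simp)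
    exact h.clm_apply continuous_const
  have hi : Continuous (fun x : E N => x i) := by fun_prop
  have hI1 : Integrable (fun x => x i * fderiv ℝ F x (EuclideanSpace.single j 1)) :=
    (hi.mul hcont).integrable_of_hasCompactSupport hcd.mul_left
  have hI2 : Integrable (fun x => fderiv ℝ (fun y : E N => y i) x (EuclideanSpace.single j 1) * F x) := by
    simp only [coord_fderiv, if_neg hij, zero_mul]
    exact integrable_zero _ _ _
  have hI3 : Integrable (fun x : E N => x i * F x) :=
    (hi.mul hF.continuous).integrable_of_hasCompactSupport hc.mul_left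
  have hd : Differentiable ℝ (fun y : E N => y i) := by fun_prop
  have h := integral_mul_fderiv_eq_neg_fderiv_mul_of_integrable hI2 hI1 hI3 (fun x _ => hd x)
    (fun x _ => hF.differentiable (by simp) x)
  refine ⟨?_, hI1⟩
  rw [h]
  simp only [coord_fderiv, if_neg hij, zero_mul, integral_zero, neg_zero]

theorem int_LL (F : E N → ℝ) (hF : ContDiff ℝ (⊤ : ℕ∞) F) (hc : HasCompactSupport F)
    (i j : Fin N) : ∫ x, LL i j F x = 0 := by
  by_cases hij : i = j
  · subst hij
    simp [LL]
  · obtain ⟨h1, h2⟩ := int_one F hF hc i j hij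
    obtain ⟨h3, h4⟩ := int_one F hF hc j i (Ne.symm hij)
    simp only [LL]
    rw [integral_sub h2 h4, h1, h3, sub_zero]

theorem LL_radial (χ : ℝ → ℝ) (hχ : ContDiff ℝ (⊤ : ℕ∞) χ) (f : E N → ℝ)
    (hf : ContDiff ℝ (⊤ : ℕ∞) f) (i j : Fin N) (x : E N) :
    LL i j (fun y => χ (‖y‖ ^ 2) * f y) x = χ (‖x‖ ^ 2) * LL i j f x := by
  have hq : HasFDerivAt (fun y : E N => ‖y‖ ^ 2) (2 • (innerSL ℝ x)) x :=
    (hasStrictFDerivAt_norm_sq x).hasFDerivAt
  have hχ' : HasDerivAt χ (deriv χ (‖x‖ ^ 2)) (‖x‖ ^ 2) :=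
    ((hχ.differentiable (by simp)) _).hasDerivAt
  have h1 : HasFDerivAt (fun y : E N => χ (‖y‖ ^ 2)) (deriv χ (‖x‖ ^ 2) • (2 • (innerSL ℝ x))) x :=
    hχ'.comp_hasFDerivAt x hq
  have h2 : HasFDerivAt f (fderiv ℝ f x) x := ((hf.differentiable (by simp)) x).hasFDerivAt
  have h3 := h1.mul h2
  have h4 : fderiv ℝ (fun y => χ (‖y‖ ^ 2) * f y) x =
    χ (‖x‖ ^ 2) • fderiv ℝ f x + f x • (deriv χ (‖x‖ ^ 2) • (2 • (innerSL ℝ x))) := h3.fderiv
  unfold LL
  rw [h4]
  have e : ∀ k : Fin N, inner ℝ x (EuclideanSpace.single k (1 : ℝ)) = x k := by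
    intro k
    simp [EuclideanSpace.inner_single_right]
  simp only [add_apply, smul_apply, innerSL_apply_apply, e,
    smul_eq_mul, nsmul_eq_mul]
  ring

theorem cont_av (g : E N → ℝ) (hg : Continuous g) : Continuous (fun r : ℝ => av (rs g r)) := by
  have h := continuous_parametric_integral_of_continuous (μ := mS N)
    (f := fun (r : ℝ) (θ : Sp N) => g (r • (θ : E N)))
    (by
      show Continuous (fun p : ℝ × Sp N => g (p.1 • (p.2 : E N)))
      exact hg.comp (continuous_fst.smul (continuous_subtype_val.comp continuous_snd)))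
    (s := univ) isCompact_univ
  simpa [av, rs] using h

theorem key (hMC : T_MC) (hN : 2 ≤ N) (hMP : T_MP) (f : E N → ℝ) (hf : ContDiff ℝ (⊤ : ℕ∞) f)
    (i j : Fin N) : ¬ 0 < av (fun θ : Sp N => LL i j f (θ : E N)) := by
  intro hpos
  have hcL : Continuous (LL i j f) := by
    have h := hf.continuous_fderiv (by simp)
    unfold LL
    exact ((by fun_prop : Continuous (fun x : E N => x i)).mul (h.clm_apply continuous_const)).sub
      ((by fun_prop : Continuous (fun x : E N => x j)).mul (h.clm_apply continuous_const))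
  have hm := cont_av (LL i j f) hcL
  have hm1 : av (rs (LL i j f) 1) = av (fun θ : Sp N => LL i j f (θ : E N)) := by
    unfold rs
    simp
  have hev : ∀ᶠ r in nhds (1 : ℝ), 0 < av (rs (LL i j f) r) :=
    hm.continuousAt.eventually (lt_mem_nhds (by
      show 0 < av (rs (LL i j f) 1)
      rw [hm1]
      exact hpos))
  obtain ⟨δ, hδ, hball⟩ := Metric.eventually_nhds_iff.1 hev
  let b : ContDiffBump (1 : ℝ) := ⟨min δ (1 / 2) / 2, min δ (1 / 2),
    by positivity, half_lt_self (by positivity)⟩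
  have hbr : b.rOut = min δ (1 / 2) := rfl
  let χ : ℝ → ℝ := fun s => b s
  have hχ : ContDiff ℝ (⊤ : ℕ∞) χ := b.contDiff
  have hχ0 : ∀ s, χ s ≠ 0 → |s - 1| < min δ (1 / 2) := by
    intro s hs
    have h : s ∈ Function.support b := hs
    rw [b.support_eq, mem_ball, Real.dist_eq, hbr] at h
    exact h
  have hχn : ∀ s, 0 ≤ χ s := fun s => b.nonneg
  have hχ1 : χ 1 = 1 := b.one_of_mem_closedBall (by simp [b.rIn_pos.le])
  -- the test function
  have hq : ContDiff ℝ (⊤ : ℕ∞) (fun y : E N => χ (‖y‖ ^ 2)) := hχ.comp (contDiff_norm_sq ℝ)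
  have hF : ContDiff ℝ (⊤ : ℕ∞) (fun y : E N => χ (‖y‖ ^ 2) * f y) := hq.mul hf
  have hcq : ∀ x : E N, x ∉ closedBall (0 : E N) 2 → χ (‖x‖ ^ 2) = 0 := by
    intro x hx
    by_contra h
    have h1 := abs_lt.1 (hχ0 _ h)
    have h2 : min δ (1 / 2) ≤ 1 / 2 := min_le_right _ _
    apply hx
    rw [mem_closedBall_zero_iff]
    nlinarith [norm_nonneg x]
  have hc : HasCompactSupport (fun y : E N => χ (‖y‖ ^ 2) * f y) :=
    HasCompactSupport.intro (isCompact_closedBall (0 : E N) 2) (fun x hx => by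
      show χ (‖x‖ ^ 2) * f x = 0
      rw [hcq x hx, zero_mul])
  have h0 := int_LL _ hF hc i j
  have hfun : LL i j (fun y => χ (‖y‖ ^ 2) * f y) = fun x => χ (‖x‖ ^ 2) * LL i j f x :=
    funext fun x => LL_radial χ hχ f hf i j x
  rw [hfun] at h0
  -- restriction to the annulus
  have hcg : Continuous (fun x : E N => χ (‖x‖ ^ 2) * LL i j f x) := hq.continuous.mul hcL
  have h1 := (hMC N (fun x : E N => χ (‖x‖ ^ 2) * LL i j f x) 0 2 hN hcg le_rfl (by norm_num)).1
  have h2 : ∫ x in an 0 2, χ (‖x‖ ^ 2) * LL i j f x = ∫ x : E N, χ (‖x‖ ^ 2) * LL i j f x := by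
    apply setIntegral_eq_integral_of_forall_compl_eq_zero
    intro x hx
    have h3 : χ (‖x‖ ^ 2) = 0 := by
      by_contra h
      have h4 := abs_lt.1 (hχ0 _ h)
      have h5 : min δ (1 / 2) ≤ 1 / 2 := min_le_right _ _
      apply hx
      show 0 < ‖x‖ ∧ ‖x‖ < 2
      constructor
      · rcases (norm_nonneg x).eq_or_lt with h6 | h6
        · rw [← h6] at h4
          norm_num at h4
        · exact h6
      · nlinarith [norm_nonneg x]
    rw [h3, zero_mul]
  rw [h2, h0] at h1
  have har : 0 < ar N := (hMP N hN).2.1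
  have h3 : ∫ r in (0 : ℝ)..2, r ^ (N - 1) * av (rs (fun x : E N => χ (‖x‖ ^ 2) * LL i j f x) r) = 0 := by
    rcases mul_eq_zero.1 h1.symm with h | h
    · exact absurd h har.ne'
    · exact h
  have hrs : ∀ r : ℝ, av (rs (fun x : E N => χ (‖x‖ ^ 2) * LL i j f x) r) =
      χ (r ^ 2) * av (rs (LL i j f) r) := by
    intro r
    rw [← av_const_mul]
    congr 1
    funext θ
    show χ (‖r • (θ : E N)‖ ^ 2) * LL i j f (r • (θ : E N)) = χ (r ^ 2) * LL i j f (r • (θ : E N))
    rw [norm_smul_sp, sq_abs]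
  have hpos2 : 0 < ∫ r in (0 : ℝ)..2,
      r ^ (N - 1) * av (rs (fun x : E N => χ (‖x‖ ^ 2) * LL i j f x) r) := by
    apply intervalIntegral.integral_pos (by norm_num)
    · exact ((continuous_pow _).mul (cont_av _ hcg)).continuousOn
    · intro r hr
      rw [hrs]
      apply mul_nonneg (pow_nonneg hr.1.le _)
      by_cases h : χ (r ^ 2) = 0
      · rw [h, zero_mul]
      · apply mul_nonneg (hχn _)
        have h4 := hχ0 _ h
        have h5 : |r - 1| ≤ |r ^ 2 - 1| := by
          have e : r ^ 2 - 1 = (r - 1) * (r + 1) := by ring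
          rw [e, abs_mul]
          have : (1 : ℝ) ≤ |r + 1| := by
            rw [abs_of_pos (by linarith [hr.1])]
            linarith [hr.1]
          nlinarith [abs_nonneg (r - 1)]
        exact (hball (by
          rw [Real.dist_eq]
          exact lt_of_le_of_lt h5 (lt_of_lt_of_le h4 (min_le_left _ _)))).le
    · refine ⟨1, by norm_num, ?_⟩
      rw [hrs, one_pow, one_pow, hχ1, one_mul, one_mul, hm1]
      exact hpos
  rw [h3] at hpos2
  exact lt_irrefl _ hpos2

theorem pf_AN (hMP : T_MP) (hMC : T_MC) : T_AN := by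
  intro N f i j hN hf
  apply le_antisymm
  · exact not_lt.1 (key hMC hN hMP f hf i j)
  · have h := not_lt.1 (key hMC hN hMP f hf j i)
    have e : (fun θ : Sp N => LL j i f (θ : E N)) = fun θ : Sp N => -LL i j f (θ : E N) := by
      funext θ
      unfold LL
      ring
    rw [e, av_neg] at h
    linarith

end Pool.Agent.H55.LQ
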